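import Pool.Agent.Lib.helper22.Conv

namespace Pool.Agent.Results.MP_a21db2_an.Closure

open Filter Topology OnePoint Metric Pool.Agent.Lib.helper22 Weak Conv

variable {X : Type} [NormedAddCommGroup X] [NormedSpace ℝ X]

def Slice (S : Set X) : Prop :=
  ∃ (f : X →L[ℝ] ℝ) (α : ℝ), f ≠ 0 ∧ 0 < α ∧ S = {y | ‖y‖ ≤ 1 ∧ ‖f‖ - α < f y}

def dent (X : Type) [NormedAddCommGroup X] [NormedSpace ℝ X] : Set X :=
  {x | ‖x‖ ≤ 1 ∧ ∀ ε > 0, ∃ S, Slice S ∧ x ∈ S ∧ diam S < ε}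

def RelWeakOpen (W : Set X) : Prop :=
  ∃ U : Set (WeakSpace ℝ X), IsOpen U ∧ W = {y | ‖y‖ ≤ 1 ∧ toWeakSpace ℝ X y ∈ U}

def Far (x : X) (C : Set X) : Prop := IsLUB ((fun y => ‖x - y‖) '' C) 2

theorem result : ∃ (X : Type) (_ : NormedAddCommGroup X) (_ : NormedSpace ℝ X)
    (_ : CompleteSpace X) (x : X), ‖x‖ = 1 ∧ (∀ W, RelWeakOpen W → x ∈ W → Far x W) ∧
    (∀ S, Slice S → x ∈ S → Far x S) ∧ x ∈ closure (dent X) := by
  let D := {q : ℝ × ℝ // q.1 ^ 2 + q.2 ^ 2 ≤ 1}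
  let v (k : K) : c × ℝ →L[ℝ] ℝ := ev k ∘L .fst ℝ c ℝ
  have : Nonempty D := ⟨⟨0, by simp⟩⟩
  have hC : ∀ (n m : K) (q : D) (z : c × ℝ),
      |(1 + q.1.1) / 2 * z.1 n - (1 - q.1.1) / 2 * z.1 m + q.1.2 * z.2| ≤ ‖z.1‖ + |z.2| := by
    rintro n m ⟨⟨a, b⟩, h⟩ ⟨y, t⟩
    have a1 : |a| ≤ 1 := by rw [← sq_le_one_iff_abs_le_one]; nlinarith
    have a2 : |b| ≤ 1 := by rw [← sq_le_one_iff_abs_le_one]; nlinarith
    have a3 := mul_le_mul_of_nonneg_right a2 (abs_nonneg t)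
    have a4 := abs_le.1 (co y n)
    have a5 := abs_le.1 (co y m)
    rw [← abs_mul] at a3
    have a6 := abs_le.1 a3
    rw [abs_le] at a1 ⊢
    constructor <;> nlinarith
  obtain ⟨X, i1, i2, i3, e, he⟩ := supnorm (fun i : K × K × D =>
      ((1 + i.2.2.1.1) / 2) • v i.1 - ((1 - i.2.2.1.1) / 2) • v i.2.1 + i.2.2.1.2 • .snd ℝ c ℝ) 2 1
    one_pos (fun i z => (hC i.1 i.2.1 i.2.2 z).trans ((add_le_add (norm_fst_le z)
      (norm_snd_le z)).trans_eq (two_mul _).symm))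
    (fun z r h => norm_prod_le_iff.2 ⟨nle _ fun k => by
      simpa [v, ev_app] using h (k, k, ⟨(1, 0), by simp⟩), by
      have := h (∞, ∞, ⟨(0, 1), by simp⟩)
      simpa using this⟩)
  replace he : ∀ y t r, ‖e (y, t)‖ ≤ r ↔ ∀ (n m : K) (q : D),
      |(1 + q.1.1) / 2 * y n - (1 - q.1.1) / 2 * y m + q.1.2 * t| ≤ r := fun y t r =>
    (he _ r).trans ⟨fun h n m q => h (n, m, q), fun h i => h _ _ _⟩
  have up : ∀ y t, ‖e (y, t)‖ ≤ ‖y‖ + |t| := fun y t => (he _ _ _).2 fun n m q => hC n m q (y, t)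
  have lo : ∀ y t k, |y k| ≤ ‖e (y, t)‖ := fun y t k => by
    simpa using (he y t _).1 le_rfl k k ⟨(1, 0), by simp⟩
  have n1 : ‖e (1, 0)‖ = 1 := le_antisymm (by simpa using up 1 0) (by simpa using lo 1 0 ∞)
  have sup : ∀ W, RelWeakOpen W → e (1, 0) ∈ W → Far (e (1, 0)) W := by
    rintro _ ⟨U, hU, rfl⟩ hW
    refine ⟨?_, fun b hb => ?_⟩
    · rintro _ ⟨y, hy, rfl⟩
      linarith [norm_sub_le (e (1, 0)) y, hy.1]
    obtain ⟨n, hn⟩ := ((wtend (wn (e.toContinuousLinearMap ∘L .inl ℝ c ℝ) (fun _ => -2) 2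
      (fun _ => by simp) (e (1, 0)))).eventually (hU.mem_nhds hW.2)).exists
    have e1 : e (1, 0) + (e.toContinuousLinearMap ∘L .inl ℝ c ℝ) ((-2 : ℝ) • u n) =
      e (1 + (-2 : ℝ) • u n, 0) := by
      rw [show ((1 + (-2 : ℝ) • u n, 0) : c × ℝ) = (1, 0) + ((-2 : ℝ) • u n, 0) by simp, map_add]
      rfl
    rw [e1] at hn
    refine le_trans ?_ (hb ⟨_, ⟨(up _ _).trans ?_, hn⟩, rfl⟩)
    · show _ ≤ ‖e _ - e _‖
      rw [← map_sub, Prod.mk_sub_mk]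
      refine le_trans ?_ (lo _ _ n)
      simp [u_self]
    · rw [abs_zero, add_zero]
      refine nle _ fun k => ?_
      rcases eq_or_ne k n with rfl | c
      · simp [u_self]; norm_num
      · simp [u_ne c]
  have den : ∀ a b : ℝ, 0 ≤ a → a < 1 → a ^ 2 + b ^ 2 = 1 → e (a • 1, b) ∈ dent X := by
    intro a b a0 a1 ab
    have p1 : ‖e (a • 1, b)‖ ≤ 1 := (he _ _ _).2 fun n m ⟨⟨s, t⟩, h⟩ => by
      simp only [ContinuousMap.smul_apply, ContinuousMap.one_apply, smul_eq_mul, abs_le]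
      constructor <;> nlinarith [sq_nonneg (s - a), sq_nonneg (t - b), sq_nonneg (s + a),
        sq_nonneg (t + b)]
    refine ⟨p1, fun ε hε => ?_⟩
    let f : X →L[ℝ] ℝ := (a • v ∞ + b • .snd ℝ c ℝ) ∘L e.symm.toContinuousLinearMap
    have fe : ∀ y t, f (e (y, t)) = a * y ∞ + b * t := fun y t => by simp [f, v, ev_app]
    have f1 : f (e (a • 1, b)) = 1 := by rw [fe, ← ab]; simp; ring
    have f2 : ‖f‖ = 1 := le_antisymm (f.opNorm_le_bound zero_le_one fun z => by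
      obtain ⟨⟨y, t⟩, rfl⟩ := e.surjective z
      rw [fe, one_mul]
      refine le_trans (le_of_eq (congrArg abs ?_)) ((he y t _).1 le_rfl ∞ ∞ ⟨(a, b), ab.le⟩)
      ring) (by simpa [f1] using f.unit_le_opNorm _ p1)
    have hβ : 0 < ε / 7 := by positivity
    set β := ε / 7 with hb
    have hα : 0 < min (β ^ 2 / 2) (β * (1 - a) / 2) := lt_min (by positivity) (by nlinarith)
    refine ⟨_, ⟨f, _, norm_ne_zero_iff.1 (by simp [f2]), hα, rfl⟩, ⟨p1, by linarith⟩,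
      (diam_le_of_subset_closedBall (x := e (a • 1, b)) (r := 3 * β) (by positivity) ?_).trans_lt
      (by linarith)⟩
    rintro z ⟨h1, h2⟩
    obtain ⟨⟨y, t⟩, rfl⟩ := e.surjective z
    rw [fe, f2] at h2
    have m1 := min_le_left (β ^ 2 / 2) (β * (1 - a) / 2)
    have m2 := min_le_right (β ^ 2 / 2) (β * (1 - a) / 2)
    have hp : 0 < 1 + y ∞ ^ 2 + t ^ 2 := by positivity
    have b1 := (le_abs_self _).trans ((he y t 1).1 h1 ∞ ∞
      ⟨(2 * y ∞ / (1 + y ∞ ^ 2 + t ^ 2), 2 * t / (1 + y ∞ ^ 2 + t ^ 2)), by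
        rw [div_pow, div_pow, ← add_div, div_le_one (by positivity)]
        nlinarith [sq_nonneg (1 - y ∞ ^ 2 - t ^ 2)]⟩)
    have b2 : y ∞ ^ 2 + t ^ 2 ≤ 1 := by
      rw [show ∀ s r w : ℝ, (1 + 2 * s / w) / 2 * s - (1 - 2 * s / w) / 2 * s + 2 * r / w * r =
        2 * (s ^ 2 + r ^ 2) / w from fun _ _ _ => by ring, div_le_one hp] at b1
      linarith
    have b3 : |y ∞ - a| ≤ β := abs_le_of_sq_le_sq' (by nlinarith [sq_nonneg (t - b)]) hβ.le |>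
      abs_le.2
    have b4 : |t - b| ≤ β := abs_le_of_sq_le_sq' (by nlinarith [sq_nonneg (y ∞ - a)]) hβ.le |>
      abs_le.2
    rw [mem_closedBall_iff_norm, ← map_sub, Prod.mk_sub_mk]
    refine (up _ _).trans ((add_le_add (nle _ (r := 2 * β) fun k => ?_) b4).trans_eq (by ring))
    have c1 := (abs_le.1 ((he y t 1).1 h1 k ∞ ⟨(a, b), ab.le⟩)).2
    have c2 := (abs_le.1 ((he y t 1).1 h1 ∞ k ⟨(a, b), ab.le⟩)).2
    have c3 : y k - y ∞ ≤ β := by nlinarith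
    have c4 : y ∞ - y k ≤ β := by nlinarith
    simp only [ContinuousMap.sub_apply, ContinuousMap.smul_apply, ContinuousMap.one_apply,
      smul_eq_mul, mul_one, abs_le] at b3 ⊢
    constructor <;> linarith [b3.1, b3.2]
  refine ⟨X, i1, i2, i3, e (1, 0), n1, sup, ?_, ?_⟩
  · rintro _ ⟨f, α, -, -, rfl⟩
    exact sup _ ⟨_, isOpen_lt continuous_const (wcont f), rfl⟩
  · have ct : Continuous fun h : ℝ => e (((1 - h ^ 2) / (1 + h ^ 2)) • (1 : c),
        2 * h / (1 + h ^ 2)) := by fun_prop (disch := intros; positivity)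
    refine mem_closure_of_tendsto (b := 𝓝[>] 0)
      ((ct.tendsto' 0 _ (by simp)).mono_left nhdsWithin_le_nhds)
      (mem_of_superset (Ioc_mem_nhdsGT one_pos) fun h hh => den _ _
        (div_nonneg (by nlinarith [hh.1, hh.2]) (by positivity))
        ((div_lt_one (by positivity)).2 (by nlinarith [hh.1])) (by field_simp; ring))

end Pool.Agent.Results.MP_a21db2_an.Closure
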